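import Mathlib
import Pool.Agent.H31.LB.Complete
import Pool.Agent.H31.LB.Value39

set_option autoImplicit false

/-!
# A lower bound for `c(F)` by the chromatic number of `F`

If `F` is not `r`-colourable, `r ≥ 3`, then `c(F) ≥ max (0.523, r log r / (4 (r - 1)))`; if `F` is not
`39`-colourable then `c(F) > 1` (while `c(K_3) ≤ 1` by Molloy).

The graphs are built as follows.  Let `T` be a disjoint union of `N` complete `r`-partite graphs
with parts of size `h`, and let `G` be the union of `D ≈ θ log h` random copies of `T` on the same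
vertex set.  A first moment argument bounds the independence number of `G`.  The mean number of
sets of at most `f` vertices in which every vertex has mates in two different copies is bounded as
`N → ∞`; after deleting one vertex of each such set, every set of at most `f` vertices is glued
from pieces of complete `r`-partite graphs in a tree-like way, so it is `r`-colourable.
-/

namespace Pool.Agent.Results.MP_349e33_co.ChromaticLowerBound

open Finset Classical Filter Pool.Agent.H31.LB
open scoped ENNReal

/-- the bound: the maximum of `0.523` and `r log r / (4 (r - 1))` -/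
noncomputable def κ (r : ℕ) : ℝ := max 0.523 (r * Real.log r / (4 * ((r : ℝ) - 1)))

theorem exists_local_colorable (r : ℕ) (hr : 3 ≤ r) (f Δ₀ : ℕ) (L : ℝ) (hL : L < κ r) :
    ∃ (V : Type) (_ : Fintype V) (G : SimpleGraph V), Δ₀ ≤ G.maxDegree ∧ 3 ≤ G.maxDegree ∧
      (∀ S : Finset V, S.card ≤ f → (G.induce (S : Set V)).Colorable r) ∧
      L ≤ (G.chromaticNumber.toNat : ℝ) / ((G.maxDegree : ℝ) / Real.log G.maxDegree) := by
  have h0 : (0.523 : ℝ) ≤ κ r := le_max_left _ _
  have hL1 : max L 0.1 < κ r := max_lt hL (by linarith)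
  have hL2 : 0 < max L 0.1 := lt_of_lt_of_le (by norm_num) (le_max_right _ _)
  rcases lt_max_iff.1 hL1 with h | h
  · obtain ⟨V, _, G, h1, h2, h3, h4⟩ := local_complete 3 (by norm_num) 3 4 (by norm_num)
      (by norm_num) (by norm_num) (Real.log (3 / 2)) (Real.log_pos (by norm_num)) (max L 0.1)
      (lt_of_lt_of_le h value_three) hL2 f Δ₀
    exact ⟨V, _, G, h1, h2, fun S hS => (h3 S hS).mono hr, (le_max_left _ _).trans h4⟩
  · obtain ⟨V, _, G, h1, h2, h3, h4⟩ := local_complete r (by omega) 2 1 (by norm_num)
      (by norm_num) (by omega) (8 / 5) (by norm_num) (max L 0.1)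
      (lt_of_lt_of_le h (value_general r hr)) hL2 f Δ₀
    exact ⟨V, _, G, h1, h2, h3, (le_max_left _ _).trans h4⟩

/-- **Theorem.**  Let `r ≥ 3`.  For every `f` and every `L < κ r` there are graphs `G` of
arbitrarily large maximum degree `Δ` all of whose subgraphs on at most `f` vertices are
`r`-colourable and whose chromatic number is at least `L Δ / log Δ`.  In particular `c(F) ≥ κ r` for
every finite graph `F` that is not `r`-colourable.  Moreover `c(F) > 1` for every finite graph `F` that
is not `39`-colourable. -/
theorem result :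
    (∀ r : ℕ, 3 ≤ r → ∀ (f Δ₀ : ℕ) (L : ℝ), L < κ r →
      ∃ (V : Type) (_ : Fintype V) (G : SimpleGraph V),
        Δ₀ ≤ G.maxDegree ∧
        (∀ S : Finset V, S.card ≤ f → (G.induce (S : Set V)).Colorable r) ∧
        L * ((G.maxDegree : ℝ) / Real.log G.maxDegree) ≤ (G.chromaticNumber.toNat : ℝ)) ∧
    (∀ r : ℕ, 3 ≤ r → ∀ (W : Type) (_ : Fintype W) (F : SimpleGraph W), ¬ F.Colorable r →
      ENNReal.ofReal (κ r) ≤ c F) ∧
    (∀ (W : Type) (_ : Fintype W) (F : SimpleGraph W), ¬ F.Colorable 39 → 1 < c F) := by
  refine ⟨?_, ?_, fun W _ F hF => one_lt_c F hF⟩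
  · intro r hr f Δ₀ L hL
    obtain ⟨V, _, G, h1, h2, h3, h4⟩ := exists_local_colorable r hr f Δ₀ L hL
    refine ⟨V, _, G, h1, h3, ?_⟩
    have h5 : (3 : ℝ) ≤ G.maxDegree := by exact_mod_cast h2
    have h6 : 0 < (G.maxDegree : ℝ) / Real.log G.maxDegree :=
      div_pos (by linarith) (Real.log_pos (by linarith))
    rwa [le_div_iff₀ h6] at h4
  · intro r hr W _ F hF
    have e1 : κ r = 0.523 ∨ κ r = r * Real.log r / (4 * ((r : ℝ) - 1)) := by
      unfold κ
      exact max_choice _ _
    rcases e1 with e1 | e1
    · rw [e1]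
      have hF3 : ¬ F.Colorable 3 := fun h => hF (h.mono hr)
      exact (ENNReal.ofReal_le_ofReal value_three).trans
        (le_c_complete 3 (by norm_num) 3 4 (by norm_num) (by norm_num) (by norm_num)
          (Real.log (3 / 2)) (Real.log_pos (by norm_num)) F hF3)
    · rw [e1]
      exact (ENNReal.ofReal_le_ofReal (value_general r hr)).trans
        (le_c_complete r (by omega) 2 1 (by norm_num) (by norm_num) (by omega)
          (8 / 5) (by norm_num) F hF)

end Pool.Agent.Results.MP_349e33_co.ChromaticLowerBound
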