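import Mathlib
import Pool.Agent.H31.LB.CliqueAsym

set_option autoImplicit false

/-!
# `c(K_r) ≥ (1/2 - o(1)) log r`

For `r → ∞` one has `c(F) ≥ (1/2 - o(1)) log r` for all graphs `F` that contain `K_r`.

Let `R` be a random graph on `q = t ^ (2 x)` vertices in which two vertices are non-adjacent with
probability `1 / t ^ 2`, where `t` is about `r ^ (1/2 - o(1))`; it has no clique of `r` vertices and
few independent sets.  Replace its vertices by independent sets of size `h`, take many disjoint
copies and then the union of `D ≈ θ log h` random copies of this graph on the same vertex set.  A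
first moment argument bounds the independence number.  After deleting a bounded number of vertices
every clique of at most `r` vertices lies in one copy of the blow-up of `R`.
-/

namespace Pool.Agent.Results.MP_349e33_co.CliqueLowerBound

open Finset Classical Filter Pool.Agent.H31.LB
open scoped ENNReal

/-- `c` is monotone -/
theorem c_mono {W W' : Type} (F : SimpleGraph W) (F' : SimpleGraph W')
    (h : F.IsContained F') : c F ≤ c F' := by
  unfold c
  refine limsup_le_limsup (Eventually.of_forall fun Δ => ?_) (by isBoundedDefault)
    (by isBoundedDefault)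
  unfold cAt
  refine iSup_le fun V => iSup_le fun inst => iSup_le fun G => iSup_le fun hF => iSup_le fun hΔ => ?_
  refine le_iSup_of_le V ?_
  refine le_iSup_of_le inst ?_
  refine le_iSup_of_le G ?_
  refine le_iSup_of_le (fun h' => hF (h.trans h')) ?_
  exact le_iSup_of_le hΔ le_rfl

/-- **Theorem.**  For every `ε > 0` there is `r₀` such that `c(F) ≥ (1/2 - ε) log r` for all
`r ≥ r₀` and all graphs `F` that contain a clique of `r` vertices; in particular this holds for the
complete graphs `K_r`. -/
theorem result (ε : ℝ) (hε : 0 < ε) :
    ∃ r₀ : ℕ, ∀ r : ℕ, r₀ ≤ r → ∀ (W : Type) (F : SimpleGraph W), ¬ F.CliqueFree r →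
      ENNReal.ofReal ((1 / 2 - ε) * Real.log r) ≤ c F := by
  obtain ⟨r₀, h⟩ := eventually_atTop.1 (c_clique ε hε)
  refine ⟨r₀, fun r hr W F hF => (h r hr).trans (c_mono _ _ ?_)⟩
  exact (SimpleGraph.not_cliqueFree_iff_top_isContained r).1 hF

end Pool.Agent.Results.MP_349e33_co.CliqueLowerBound
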